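import Pool.Agent.Helper65.KG.Goals
import Pool.Agent.Helper32.KN.XX

/-!
# Project KG (MP_20ee5e_ag), packet TP: summation of the pair inequality
-/

set_option autoImplicit false

open MeasureTheory Set

namespace Pool.Agent.Helper48.KG.TP

open Pool.Agent.Helper70.KN Pool.Agent.Helper65.KG

theorem t (hPI : S_PI) : S_TP := by
  intro N V c hN hV k hk
  have hkN : k + 2 ≤ N := hk
  have hdouble := fun f : Finset (Fin N) → ℝ => Pool.Agent.Helper32.KN.XX.double f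
  have hcastm : ((N - k : ℕ) : ℝ) = (N : ℝ) - k := by
    rw [Nat.cast_sub (by omega)]
  have hcastm1 : ((N - (k + 1) : ℕ) : ℝ) = (N : ℝ) - k - 1 := by
    rw [Nat.cast_sub (by omega)]
    push_cast
    ring
  set P := (Finset.univ : Finset (Fin N)).powersetCard k with hP
  have hcard : ∀ J ∈ P, J.card = k := fun J hJ => (Finset.mem_powersetCard.1 hJ).2
  -- the four sums
  have hpos : 0 ≤ ∑ J ∈ P, ∑ i ∈ Jᶜ, ∑ j ∈ (insert i J)ᶜ,
      (((N : ℝ) - k) * ((N : ℝ) - k - 1) * W V J -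
        c * ((N : ℝ) - k - 1) * (W V (insert i J) + W V (insert j J)) +
        c ^ 2 * W V (insert j (insert i J))) := by
    refine Finset.sum_nonneg fun J hJ => Finset.sum_nonneg fun i hi =>
      Finset.sum_nonneg fun j hj => ?_
    have h1 : i ∉ J := Finset.mem_compl.1 hi
    have h2 : j ∉ insert i J := Finset.mem_compl.1 hj
    have h3 : j ≠ i := fun h => h2 (h ▸ Finset.mem_insert_self _ _)
    have h4 : j ∉ J := fun h => h2 (Finset.mem_insert_of_mem h)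
    have h5 := hPI N V c hN hV J i j h3.symm h1 h4
    rw [hcard J hJ] at h5
    rwa [Finset.insert_comm j i J]
  have hcc : ∀ J ∈ P, ∀ i ∈ Jᶜ, (((insert i J)ᶜ.card : ℕ) : ℝ) = (N : ℝ) - k - 1 := by
    intro J hJ i hi
    rw [Finset.card_compl, Fintype.card_fin, Finset.card_insert_of_notMem (Finset.mem_compl.1 hi),
      hcard J hJ, hcastm1]
  have hcc1 : ∀ J ∈ P, ((Jᶜ.card : ℕ) : ℝ) = (N : ℝ) - k := by
    intro J hJ
    rw [Finset.card_compl, Fintype.card_fin, hcard J hJ, hcastm]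
  have e1 : ∑ J ∈ P, ∑ i ∈ Jᶜ, ∑ j ∈ (insert i J)ᶜ, W V J =
      ((N : ℝ) - k) * ((N : ℝ) - k - 1) * X V k := by
    unfold X
    rw [Finset.mul_sum]
    refine Finset.sum_congr rfl fun J hJ => ?_
    have h1 : ∑ i ∈ Jᶜ, ∑ j ∈ (insert i J)ᶜ, W V J =
        ∑ i ∈ Jᶜ, ((N : ℝ) - k - 1) * W V J := by
      refine Finset.sum_congr rfl fun i hi => ?_
      rw [Finset.sum_const, nsmul_eq_mul, hcc J hJ i hi]
    rw [h1, Finset.sum_const, nsmul_eq_mul, hcc1 J hJ]
    ring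
  have e2 : ∑ J ∈ P, ∑ i ∈ Jᶜ, ∑ j ∈ (insert i J)ᶜ, W V (insert i J) =
      ((N : ℝ) - k - 1) * (((k : ℝ) + 1) * X V (k + 1)) := by
    unfold X
    rw [hdouble (W V) k, Finset.mul_sum]
    refine Finset.sum_congr rfl fun J hJ => ?_
    rw [Finset.mul_sum]
    refine Finset.sum_congr rfl fun i hi => ?_
    rw [Finset.sum_const, nsmul_eq_mul, hcc J hJ i hi]
  have e3 : ∑ J ∈ P, ∑ i ∈ Jᶜ, ∑ j ∈ (insert i J)ᶜ, W V (insert j J) =
      ((N : ℝ) - k - 1) * (((k : ℝ) + 1) * X V (k + 1)) := by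
    rw [← e2]
    refine Finset.sum_congr rfl fun J hJ => ?_
    refine Finset.sum_comm' ?_
    intro i j
    simp only [Finset.mem_compl, Finset.mem_insert, not_or]
    constructor
    · rintro ⟨h1, h2, h3⟩
      exact ⟨⟨fun h => h2 h.symm, h1⟩, h3⟩
    · rintro ⟨⟨h1, h2⟩, h3⟩
      exact ⟨h2, fun h => h1 h.symm, h3⟩
  have e4 : ∑ J ∈ P, ∑ i ∈ Jᶜ, ∑ j ∈ (insert i J)ᶜ, W V (insert j (insert i J)) =
      ((k : ℝ) + 1) * (((k : ℝ) + 2) * X V (k + 2)) := by
    have h1 := hdouble (fun J' => ∑ j ∈ J'ᶜ, W V (insert j J')) k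
    rw [← h1]
    have h2 := hdouble (W V) (k + 1)
    rw [← h2]
    unfold X
    push_cast
    ring
  have hsum : ∑ J ∈ P, ∑ i ∈ Jᶜ, ∑ j ∈ (insert i J)ᶜ,
      (((N : ℝ) - k) * ((N : ℝ) - k - 1) * W V J -
        c * ((N : ℝ) - k - 1) * (W V (insert i J) + W V (insert j J)) +
        c ^ 2 * W V (insert j (insert i J))) =
      ((N : ℝ) - k) * ((N : ℝ) - k - 1) * (((N : ℝ) - k) * ((N : ℝ) - k - 1) * X V k) -
        c * ((N : ℝ) - k - 1) * (((N : ℝ) - k - 1) * (((k : ℝ) + 1) * X V (k + 1)) +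
          ((N : ℝ) - k - 1) * (((k : ℝ) + 1) * X V (k + 1))) +
        c ^ 2 * (((k : ℝ) + 1) * (((k : ℝ) + 2) * X V (k + 2))) := by
    rw [← e1, ← e4]
    nth_rewrite 1 [← e2]
    rw [← e3]
    simp only [Finset.sum_add_distrib, Finset.sum_sub_distrib, ← Finset.mul_sum]
  rw [hsum] at hpos
  have hf1 : ((N - k).factorial : ℝ) =
      ((N : ℝ) - k) * (((N : ℝ) - k - 1) * ((N - (k + 2)).factorial : ℝ)) := by
    have h3 : N - k = (N - (k + 2)) + 2 := by omega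
    have h4 : ((N - (k + 2) : ℕ) : ℝ) = (N : ℝ) - k - 2 := by
      rw [Nat.cast_sub hk]
      push_cast
      ring
    rw [h3, Nat.factorial_succ, Nat.factorial_succ]
    push_cast
    rw [h4]
    ring
  have hf2 : ((N - (k + 1)).factorial : ℝ) =
      ((N : ℝ) - k - 1) * ((N - (k + 2)).factorial : ℝ) := by
    have h3 : N - (k + 1) = (N - (k + 2)) + 1 := by omega
    have h4 : ((N - (k + 2) : ℕ) : ℝ) = (N : ℝ) - k - 2 := by
      rw [Nat.cast_sub hk]
      push_cast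
      ring
    rw [h3, Nat.factorial_succ]
    push_cast
    rw [h4]
    ring
  have hfp : (0 : ℝ) ≤ ((N - (k + 2)).factorial : ℝ) := by positivity
  have hfin := mul_nonneg hfp hpos
  unfold T
  rw [hf1, hf2]
  refine hfin.trans (le_of_eq ?_)
  ring

end Pool.Agent.Helper48.KG.TP
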